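import Pool.Agent.W732.Ud.Stm

/-!
# Peak functions and Blaschke product together
-/

set_option autoImplicit false

open Metric Set Filter Topology Complex

namespace Pool.Agent.W101.Ud

open Pool.Agent.W732.Ud

theorem main : S_pk → S_bl → S_disc := by
  intro hpk hbl μ hμ hlim ρ hρ0 hρ1 L κ hκ
  have hM : ∀ k : ℕ, ∃ M : ℕ, ρ k ^ M ≤ 1 / ((k : ℝ) + 1) := by
    intro k
    obtain ⟨M, hM⟩ := exists_pow_lt_of_lt_one (show (0 : ℝ) < 1 / ((k : ℝ) + 1) by positivity)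
      (hρ1 k)
    exact ⟨M, hM.le⟩
  choose M hM using hM
  have hs : ∀ k : ℕ, ∃ s : ℝ, ρ k < s ∧ s < 1 ∧ Real.exp (-(1 / 2) ^ (k + 2)) ≤ s ^ M k := by
    intro k
    refine ⟨max ((1 + ρ k) / 2) (Real.exp (-(1 / 2) ^ (k + 2) / (M k + 1))), ?_, ?_, ?_⟩
    · refine lt_of_lt_of_le ?_ (le_max_left _ _)
      linarith [hρ1 k]
    · apply max_lt
      · linarith [hρ1 k]
      · rw [Real.exp_lt_one_iff]
        have h1 : (0 : ℝ) < (1 / 2) ^ (k + 2) := by positivity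
        have h2 : (0 : ℝ) < (M k : ℝ) + 1 := by positivity
        rw [neg_div]
        have h3 : 0 < (1 / 2 : ℝ) ^ (k + 2) / ((M k : ℝ) + 1) := by positivity
        linarith
    · have h1 : Real.exp (-(1 / 2) ^ (k + 2)) ≤
          Real.exp (-(1 / 2) ^ (k + 2) / (M k + 1)) ^ M k := by
        rw [← Real.exp_nat_mul]
        apply Real.exp_le_exp.2
        have h2 : (0 : ℝ) < (M k : ℝ) + 1 := by positivity
        have h3 : (0 : ℝ) < (1 / 2) ^ (k + 2) := by positivity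
        rw [mul_div_assoc', le_div_iff₀ h2]
        nlinarith
      refine h1.trans ?_
      exact pow_le_pow_left₀ (Real.exp_pos _).le (le_max_right _ _) _
  choose s hs1 hs2 hs3 using hs
  have hs0 : ∀ k, 0 < s k := fun k => (hρ0 k).trans (hs1 k)
  obtain ⟨n, p, hn, hL, hp1, hp2, hp3, hp4, hp5⟩ := hpk μ hμ hlim s hs0 hs2 L κ hκ
  obtain ⟨b, hb1, hb2, hb3, hb4⟩ := hbl (fun k => μ (n k)) M s (fun k => hμ _) hs0 hs2 hs3
  refine ⟨n, b, p, fun k => {x | ph (μ (n k)) x < s k}, hn, hL, hb1, hb2, hp1, hp2, hp3, hp4,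
    ?_, ?_, ?_⟩
  · intro k x hx hph
    refine ⟨lt_of_le_of_lt hph (hs1 k), (hb4 k x hx).trans ?_⟩
    exact (pow_le_pow_left₀ (norm_nonneg _) hph _).trans (hM k)
  · intro x hx h
    exact hb3 x hx fun k => not_lt.1 (h k)
  · intro k x hx h
    exact hp5 k x hx h

end Pool.Agent.W101.Ud
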